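import Pool.Agent.HP953.EH.Over

/-! # MP_d26ff6_al: structures whose quaternions add up

For a finite quaternionic structure `T` it is equivalent that the quaternions lie in a group of
exponent two in which `q` is additive, that symbols extend from subgroups with two generators, that
product symbols extend from subgroups with at most four elements, that `T` embeds in a finite
direct product of structures with at most two quaternions, and that `T` embeds in a finite
structure of elementary type. -/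

set_option autoImplicit false

namespace Pool.Agent.Results.MP_d26ff6_al.AdditiveQuaternions

open Pool.Agent.H315R3.ETC
open Pool.Agent.TH673.VG (ProdTwo)
open Pool.Agent.Y920.QB (Emb)
open Pool.Agent.HP953.EH (AddQuat PairExtend ProductsExtend)

theorem result (T : QData) (hT : IsQuat T) (hf : Finite T.G) :
    (AddQuat T ↔ PairExtend T) ∧
    (AddQuat T ↔ ProductsExtend 4 T) ∧
    (AddQuat T ↔ ∃ (S : QData) (ι : T.G →* S.G), IsQuat S ∧ Finite S.G ∧ ProdTwo S ∧ Emb T S ι) ∧
    (AddQuat T ↔ ∃ (S : QData) (ι : T.G →* S.G), IsQuat S ∧ Finite S.G ∧ Elem S ∧ Emb T S ι) := by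
  have h1 : AddQuat T →
      ∃ (S : QData) (ι : T.G →* S.G), IsQuat S ∧ Finite S.G ∧ ProdTwo S ∧ Emb T S ι := by
    intro hA
    obtain ⟨S, ι, hP, hS, hfS, hE⟩ := Pool.Agent.HP953.EH.emb_of_add hT hf hA
    exact ⟨S, ι, hS, hfS, hP, hE⟩
  have h2 : ∀ (S : QData) (ι : T.G →* S.G), Elem S → Emb T S ι → AddQuat T :=
    fun S ι hS hE =>
      Pool.Agent.HP953.EH.add_of_emb hE (Pool.Agent.HP953.EH.good_of_elem hS).2
  have hAP : AddQuat T ↔ PairExtend T :=
    ⟨Pool.Agent.HP953.EH.pair_of_add hT, Pool.Agent.HP953.EH.add_of_pair hT⟩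
  refine ⟨hAP, ⟨fun h => Pool.Agent.HP953.EH.products_four_of_pair hT hf (hAP.1 h),
    Pool.Agent.HP953.EH.add_of_products_four T hT hf⟩, ⟨h1, ?_⟩, ⟨?_, ?_⟩⟩
  · rintro ⟨S, ι, -, -, hP, hE⟩
    exact h2 S ι (Pool.Agent.HP953.EH.elem_of_prodTwo hP) hE
  · intro hA
    obtain ⟨S, ι, hS, hfS, hP, hE⟩ := h1 hA
    exact ⟨S, ι, hS, hfS, Pool.Agent.HP953.EH.elem_of_prodTwo hP, hE⟩
  · rintro ⟨S, ι, -, -, hES, hE⟩
    exact h2 S ι hES hE

end Pool.Agent.Results.MP_d26ff6_al.AdditiveQuaternions
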