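import Pool.Agent.HP953.EH.Over

/-! # MP_d26ff6_al: the elementary type conjecture and substructures

For structures whose quaternions add up the elementary type conjecture is equivalent to the
statement that substructures inherit elementary type, to the same statement for substructures of
products of structures with at most two quaternions, to the extension of product symbols from
subgroups with at most eight elements, and to the linkage axiom for the structures `T_u`.  The
elementary type conjecture holds if and only if this is so and quaternions always add up, that is,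
product symbols always extend from subgroups with at most four elements. -/

set_option autoImplicit false

namespace Pool.Agent.Results.MP_d26ff6_al.Heredity

open Pool.Agent.H315R3.ETC
open Pool.Agent.TH673.VG (ProdTwo)
open Pool.Agent.Y920.QB (Emb)
open Pool.Agent.HP953.EH (AddQuat ProductsExtend modU)

/-- substructures of finite quaternionic structures of elementary type are of elementary type -/
def Hereditary : Prop :=
  ∀ (S T : QData) (ι : T.G →* S.G), IsQuat S → Finite S.G → Elem S → IsQuat T → Emb T S ι → Elem T

/-- substructures of finite direct products of finite quaternionic structures with at most two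
quaternions are of elementary type -/
def HereditaryTwo : Prop :=
  ∀ (S T : QData) (ι : T.G →* S.G), IsQuat S → Finite S.G → ProdTwo S → IsQuat T → Emb T S ι →
    Elem T

theorem result :
    -- the conjecture
    ((∀ T : QData, IsQuat T → Finite T.G → Elem T) ↔
      (∀ T : QData, IsQuat T → Finite T.G → ProductsExtend 4 T) ∧ Hereditary) ∧
    -- the conjecture for structures whose quaternions add up
    (Hereditary ↔ ∀ T : QData, IsQuat T → Finite T.G → AddQuat T → Elem T) ∧
    (Hereditary ↔ HereditaryTwo) ∧
    (Hereditary ↔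
      ∀ T : QData, IsQuat T → Finite T.G → ProductsExtend 4 T → ProductsExtend 8 T) ∧
    (Hereditary ↔
      ∀ T : QData, IsQuat T → Finite T.G → AddQuat T →
        ∀ u : T.G, IsQuat (modU T (Subgroup.zpowers u))) := by
  have hfin : ∀ (S T : QData) (ι : T.G →* S.G), Finite S.G → Emb T S ι → Finite T.G :=
    fun S T ι hf hE => haveI := hf; Finite.of_injective ι hE.inj
  have h1 : ∀ T : QData, IsQuat T → Finite T.G → AddQuat T →
      ∃ (S : QData) (ι : T.G →* S.G), IsQuat S ∧ Finite S.G ∧ ProdTwo S ∧ Emb T S ι := by
    intro T hT hf hA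
    obtain ⟨S, ι, hP, hS, hfS, hE⟩ := Pool.Agent.HP953.EH.emb_of_add hT hf hA
    exact ⟨S, ι, hS, hfS, hP, hE⟩
  have hEA : ∀ T : QData, Elem T → AddQuat T := fun T hT =>
    (Pool.Agent.HP953.EH.good_of_elem hT).2
  have h2 : ∀ (S T : QData) (ι : T.G →* S.G), Elem S → Emb T S ι → AddQuat T :=
    fun S T ι hS hE => Pool.Agent.HP953.EH.add_of_emb hE (hEA S hS)
  have hAP : ∀ T : QData, IsQuat T → (AddQuat T ↔ Pool.Agent.HP953.EH.PairExtend T) :=
    fun T hT => ⟨Pool.Agent.HP953.EH.pair_of_add hT, Pool.Agent.HP953.EH.add_of_pair hT⟩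
  have hA4 : ∀ T : QData, IsQuat T → Finite T.G → (AddQuat T ↔ ProductsExtend 4 T) :=
    fun T hT hf =>
      ⟨fun h => Pool.Agent.HP953.EH.products_four_of_pair hT hf ((hAP T hT).1 h),
        Pool.Agent.HP953.EH.add_of_products_four T hT hf⟩
  have h3 : HereditaryTwo → ∀ T : QData, IsQuat T → Finite T.G → AddQuat T → Elem T := by
    intro hH T hT hf hA
    obtain ⟨S, ι, hS, hfS, hP, hE⟩ := h1 T hT hf hA
    exact hH S T ι hS hfS hP hT hE
  have h4 : Hereditary → HereditaryTwo := fun hH S T ι hS hf hP hT hE =>
    hH S T ι hS hf (Pool.Agent.HP953.EH.elem_of_prodTwo hP) hT hE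
  have h5 : (∀ T : QData, IsQuat T → Finite T.G → AddQuat T → Elem T) → Hereditary :=
    fun h S T ι _ hf hES hT hE => h T hT (hfin S T ι hf hE) (h2 S T ι hES hE)
  -- induction in terms of the `T_u`
  have h6 : (∀ T : QData, IsQuat T → Finite T.G → AddQuat T →
      ∀ u : T.G, IsQuat (modU T (Subgroup.zpowers u))) →
      ∀ T : QData, IsQuat T → Finite T.G → AddQuat T → Elem T := by
    intro h
    have hall : ∀ n : ℕ, ∀ T : QData, IsQuat T → Finite T.G → AddQuat T → Nat.card T.G = n →
        Elem T := by
      intro n
      induction n using Nat.strong_induction_on with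
      | _ n ih =>
        intro T hT hf hA hc
        refine Pool.Agent.HP953.EH.step_over T hT hf ((hA4 T hT hf).1 hA) (h T hT hf hA) ?_
        intro T' hT' hf' hA' hlt
        exact ih _ (by omega) T' hT' hf' hA' rfl
    exact fun T hT hf hA => hall _ T hT hf hA rfl
  refine ⟨⟨?_, ?_⟩, ⟨fun h => h3 (h4 h), h5⟩, ⟨h4, fun h => h5 (h3 h)⟩, ⟨?_, ?_⟩,
    ⟨?_, fun h => h5 (h6 h)⟩⟩
  · intro h
    exact ⟨fun T hT hf => (hA4 T hT hf).1 (hEA T (h T hT hf)),
      fun S T ι _ hf _ hT hE => h T hT (hfin S T ι hf hE)⟩
  · rintro ⟨hP, hH⟩ T hT hf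
    exact h3 (h4 hH) T hT hf ((hA4 T hT hf).2 (hP T hT hf))
  · intro h T hT hf h4'
    exact Pool.Agent.HP953.EH.products_of_elem hT
      (h3 (h4 h) T hT hf ((hA4 T hT hf).2 h4')) 8
  · intro h
    refine h5 (h6 fun T hT hf hA u => ?_)
    exact Pool.Agent.HP953.EH.over_of_products T hT hf
      (Pool.Agent.HP953.EH.smallProd_of (h T hT hf ((hA4 T hT hf).1 hA))) u
  · intro h T hT hf hA u
    exact Pool.Agent.HP953.EH.over_of_elem T hT hf (h3 (h4 h) T hT hf hA) _

end Pool.Agent.Results.MP_d26ff6_al.Heredity
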