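import Pool.Agent.HP953.EH.Over

/-! # MP_d26ff6_al: elementary type and linkage modulo the symbols of a subgroup

For a subgroup `U` of `G` let `q_U(a,b)` be the family of the values `χ(a,b)` of all symbols `χ`
which are trivial on `U × G`.  A finite quaternionic structure is of elementary type if and only if
its quaternions add up and all `T_U = (G, -1, q_U)` are quaternionic structures, that is, satisfy
the linkage axiom; and then all `T_U` are of elementary type. -/

set_option autoImplicit false

namespace Pool.Agent.Results.MP_d26ff6_al.LinkageCriterion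

open Pool.Agent.H315R3.ETC
open Pool.Agent.HP953.EH (AddQuat modU)

theorem result (T : QData) (hT : IsQuat T) (hf : Finite T.G) :
    (Elem T ↔ AddQuat T ∧ ∀ U : Subgroup T.G, IsQuat (modU T U)) ∧
    (Elem T ↔ AddQuat T ∧ ∀ U : Subgroup T.G, IsQuat (modU T U) ∧ Elem (modU T U)) := by
  have hEA : Elem T → AddQuat T := fun h => (Pool.Agent.HP953.EH.good_of_elem h).2
  have hA4 : AddQuat T → Pool.Agent.HP953.EH.ProductsExtend 4 T := fun h =>
    Pool.Agent.HP953.EH.products_four_of_pair hT hf (Pool.Agent.HP953.EH.pair_of_add hT h)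
  have hO := Pool.Agent.HP953.EH.over_of_elem T hT hf
  have hE := Pool.Agent.HP953.EH.elem_modU T hT hf
  have hb : (AddQuat T ∧ ∀ U : Subgroup T.G, IsQuat (modU T U)) → Elem T := fun h =>
    Pool.Agent.HP953.EH.elem_of_over T hT hf (hA4 h.1) h.2
  exact ⟨⟨fun h => ⟨hEA h, hO h⟩, hb⟩, ⟨fun h => ⟨hEA h, fun U => ⟨hO h U, hE h U⟩⟩,
    fun h => hb ⟨h.1, fun U => (h.2 U).1⟩⟩⟩

end Pool.Agent.Results.MP_d26ff6_al.LinkageCriterion
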