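import Pool.Agent.HP953.EH.Quot

/-! # MP_d26ff6_al: subquotients of structures of elementary type

A subquotient of a finite quaternionic structure of elementary type is of elementary type; in
particular this holds for quotients and for retracts. -/

set_option autoImplicit false

namespace Pool.Agent.Results.MP_d26ff6_al.Subquotients

open Pool.Agent.H315R3.ETC
open Pool.Agent.HP953.EH (Retract Quotient SubQuot)

theorem result (S T : QData) (hS : IsQuat S) (hfS : Finite S.G) (hT : IsQuat T)
    (hfT : Finite T.G) (hE : Elem S) :
    (SubQuot T S → Elem T) ∧ (Quotient T S → Elem T) ∧ (Retract T S → Elem T) := by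
  have hmain : SubQuot T S → Elem T := fun hR =>
    Pool.Agent.HP953.EH.elem_of_subquot hT hfT hS hfS hE hR
  exact ⟨hmain, fun hR => hmain (Pool.Agent.HP953.EH.subquot_of_quotient hR), fun hR =>
    hmain (Pool.Agent.HP953.EH.subquot_of_retract hR)⟩

end Pool.Agent.Results.MP_d26ff6_al.Subquotients
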